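import Pool.Agent.helper88.GR.Spec

/-!
# Project gr: (MP_af9036_an), module KER: the kernel with three poles
-/

set_option autoImplicit false

open Complex Metric Set Filter Topology MeasureTheory

noncomputable section

namespace GR

theorem KER_polar (φ : ℝ → ENNReal) (hφ : Measurable φ) :
    ∫⁻ z : ℂ, φ ‖z‖ = ENNReal.ofReal (2 * Real.pi) * ∫⁻ r in Ioi (0 : ℝ), ENNReal.ofReal r * φ r := by
  rw [← Complex.lintegral_comp_polarCoord_symm (fun z => φ ‖z‖), _root_.polarCoord_target,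
    Measure.volume_eq_prod, ← Measure.prod_restrict]
  have h1 : Measurable (fun p : ℝ × ℝ => ENNReal.ofReal p.1 * φ |p.1|) := by fun_prop
  simp only [Complex.norm_polarCoord_symm, smul_eq_mul]
  rw [lintegral_prod _ h1.aemeasurable]
  simp only [lintegral_const, Measure.restrict_apply MeasurableSet.univ, univ_inter,
    Real.volume_Ioo, sub_neg_eq_add]
  rw [lintegral_mul_const _ (by fun_prop), mul_comm, two_mul]
  congr 1
  refine setLIntegral_congr_fun measurableSet_Ioi fun r hr => ?_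
  rw [abs_of_pos (mem_Ioi.1 hr)]

/-- integral of a radial function over a set of radii -/
theorem KER_radial (S : Set ℝ) (hS : MeasurableSet S) (h : ℝ → ℝ) (hh : Measurable h) :
    ∫⁻ z : ℂ in {z : ℂ | ‖z‖ ∈ S}, ENNReal.ofReal (h ‖z‖) =
      ENNReal.ofReal (2 * Real.pi) * ∫⁻ r in Ioi (0 : ℝ) ∩ S, ENNReal.ofReal (r * h r) := by
  have hm : MeasurableSet {z : ℂ | ‖z‖ ∈ S} := measurable_norm hS
  have h1 : ∫⁻ z : ℂ in {z : ℂ | ‖z‖ ∈ S}, ENNReal.ofReal (h ‖z‖) =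
      ∫⁻ z : ℂ, S.indicator (fun r => ENNReal.ofReal (h r)) ‖z‖ := by
    rw [← lintegral_indicator hm]
    refine lintegral_congr fun z => ?_
    by_cases hz : ‖z‖ ∈ S
    · rw [indicator_of_mem hz, indicator_of_mem (show z ∈ {z : ℂ | ‖z‖ ∈ S} from hz)]
    · rw [indicator_of_notMem hz, indicator_of_notMem (show z ∉ {z : ℂ | ‖z‖ ∈ S} from hz)]
  rw [h1, KER_polar _ ((hh.ennreal_ofReal).indicator hS)]
  congr 1
  have h2 : ∀ r : ℝ, ENNReal.ofReal r * S.indicator (fun r => ENNReal.ofReal (h r)) r =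
      S.indicator (fun r => ENNReal.ofReal r * ENNReal.ofReal (h r)) r := by
    intro r
    by_cases hr : r ∈ S
    · rw [indicator_of_mem hr, indicator_of_mem hr]
    · rw [indicator_of_notMem hr, indicator_of_notMem hr, mul_zero]
  simp_rw [h2]
  rw [lintegral_indicator hS, Measure.restrict_restrict hS, inter_comm]
  refine setLIntegral_congr_fun (measurableSet_Ioi.inter hS) fun r hr => ?_
  rw [ENNReal.ofReal_mul (le_of_lt hr.1)]

theorem KER_v1 (R : ℝ) (_hR : 0 < R) :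
    ∫⁻ z : ℂ in ball 0 R, ENNReal.ofReal (1 / ‖z‖) = ENNReal.ofReal (2 * Real.pi * R) := by
  have h0 : (ball 0 R : Set ℂ) = {z : ℂ | ‖z‖ ∈ Iio R} := by
    ext z
    simp
  rw [h0, KER_radial (Iio R) measurableSet_Iio (fun r => 1 / r) (by fun_prop),
    ENNReal.ofReal_mul (p := 2 * Real.pi) (q := R) (by positivity)]
  congr 1
  have h1 : ∀ r ∈ Ioi (0 : ℝ) ∩ Iio R, ENNReal.ofReal (r * (1 / r)) = 1 := by
    intro r hr
    rw [mul_one_div_cancel (ne_of_gt hr.1), ENNReal.ofReal_one]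
  rw [setLIntegral_congr_fun (measurableSet_Ioi.inter measurableSet_Iio) h1, setLIntegral_one,
    Ioi_inter_Iio, Real.volume_Ioo, sub_zero]

theorem KER_v1a (a : ℂ) (R : ℝ) (hR : 0 < R) :
    ∫⁻ z : ℂ in ball a R, ENNReal.ofReal (1 / ‖z - a‖) = ENNReal.ofReal (2 * Real.pi * R) := by
  have h := (measurePreserving_sub_right (volume : Measure ℂ) a).setLIntegral_comp_preimage_emb
    (MeasurableEquiv.subRight a).measurableEmbedding (fun z : ℂ => ENNReal.ofReal (1 / ‖z‖))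
    (ball 0 R)
  have hp : (fun z : ℂ => z - a) ⁻¹' ball 0 R = ball a R := by
    ext z
    simp [dist_eq_norm]
  rw [hp] at h
  rw [← KER_v1 R hR]
  exact h

theorem KER_v2 (s t : ℝ) (hs : 0 < s) (hst : s ≤ t) :
    ∫⁻ z : ℂ in {z : ℂ | ‖z‖ ∈ Ioc s t}, ENNReal.ofReal (1 / ‖z‖ ^ 2) =
      ENNReal.ofReal (2 * Real.pi * Real.log (t / s)) := by
  have ht : 0 < t := hs.trans_le hst
  rw [KER_radial (Ioc s t) measurableSet_Ioc (fun r => 1 / r ^ 2) (by fun_prop),
    ENNReal.ofReal_mul (p := 2 * Real.pi) (q := Real.log (t / s)) (by positivity)]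
  congr 1
  have h0 : Ioi (0 : ℝ) ∩ Ioc s t = Ioc s t :=
    inter_eq_right.2 fun r hr => hs.trans hr.1
  rw [h0]
  have h1 : ∀ r ∈ Ioc s t, ENNReal.ofReal (r * (1 / r ^ 2)) = ENNReal.ofReal (1 / r) := by
    intro r hr
    have hr0 : r ≠ 0 := (hs.trans hr.1).ne'
    congr 1
    field_simp
  rw [setLIntegral_congr_fun measurableSet_Ioc h1]
  have hint : IntegrableOn (fun r : ℝ => 1 / r) (Ioc s t) := by
    have hc : ContinuousOn (fun r : ℝ => 1 / r) (Icc s t) :=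
      continuousOn_const.div continuousOn_id fun r hr => (hs.trans_le hr.1).ne'
    exact hc.integrableOn_Icc.mono_set Ioc_subset_Icc_self
  have hnn : 0 ≤ᵐ[volume.restrict (Ioc s t)] fun r : ℝ => 1 / r := by
    filter_upwards [ae_restrict_mem measurableSet_Ioc] with r hr
    exact (one_div_pos.2 (hs.trans hr.1)).le
  rw [← ofReal_integral_eq_lintegral_ofReal hint hnn, ← intervalIntegral.integral_of_le hst,
    integral_one_div_of_pos hs ht]

theorem KER_v3 (s : ℝ) (hs : 0 < s) :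
    ∫⁻ z : ℂ in {z : ℂ | ‖z‖ ∈ Ioi s}, ENNReal.ofReal (1 / ‖z‖ ^ 3) =
      ENNReal.ofReal (2 * Real.pi * (1 / s)) := by
  rw [KER_radial (Ioi s) measurableSet_Ioi (fun r => 1 / r ^ 3) (by fun_prop),
    ENNReal.ofReal_mul (p := 2 * Real.pi) (q := 1 / s) (by positivity)]
  congr 1
  have h0 : Ioi (0 : ℝ) ∩ Ioi s = Ioi s := inter_eq_right.2 fun r hr => hs.trans hr
  rw [h0]
  have h1 : ∀ r ∈ Ioi s, ENNReal.ofReal (r * (1 / r ^ 3)) = ENNReal.ofReal (r ^ (-2 : ℝ)) := by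
    intro r hr
    have hr0 : 0 < r := hs.trans hr
    congr 1
    rw [Real.rpow_neg hr0.le, show (2 : ℝ) = ((2 : ℕ) : ℝ) by norm_num, Real.rpow_natCast]
    field_simp
  rw [setLIntegral_congr_fun measurableSet_Ioi h1]
  have hint := integrableOn_Ioi_rpow_of_lt (a := -2) (by norm_num) hs
  have hnn : 0 ≤ᵐ[volume.restrict (Ioi s)] fun r : ℝ => r ^ (-2 : ℝ) := by
    filter_upwards [ae_restrict_mem measurableSet_Ioi] with r hr
    exact Real.rpow_nonneg (hs.trans hr).le _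
  rw [← ofReal_integral_eq_lintegral_ofReal hint hnn, integral_Ioi_rpow_of_lt (by norm_num) hs]
  congr 1
  rw [show (-2 : ℝ) + 1 = -1 by norm_num, Real.rpow_neg_one]
  ring

theorem KER_cov (S : Set ℂ) (hS : MeasurableSet S) (c v : ℝ) (hc : 0 ≤ c) (h : ℂ → ℝ)
    (hh : Measurable h) (hv : ∫⁻ z in S, ENNReal.ofReal (h z) = ENNReal.ofReal v) :
    Measurable (S.indicator fun z => ENNReal.ofReal c * ENNReal.ofReal (h z)) ∧
    ∫⁻ z, S.indicator (fun z => ENNReal.ofReal c * ENNReal.ofReal (h z)) z =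
      ENNReal.ofReal (c * v) := by
  refine ⟨Measurable.indicator (by fun_prop) hS, ?_⟩
  rw [lintegral_indicator hS, lintegral_const_mul _ (by fun_prop), hv, ENNReal.ofReal_mul hc]

theorem KER_pt (S : Set ℂ) (c : ℝ) (hc : 0 ≤ c) (h : ℂ → ℝ) (z : ℂ) (hz : z ∈ S) (u : ℝ)
    (hu : u ≤ c * h z) :
    ENNReal.ofReal u ≤ S.indicator (fun z => ENNReal.ofReal c * ENNReal.ofReal (h z)) z := by
  rw [indicator_of_mem hz, ← ENNReal.ofReal_mul hc]
  exact ENNReal.ofReal_le_ofReal hu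

theorem KER : KER_stmt := by
  have hl8 : 0 < Real.log 8 := Real.log_pos (by norm_num)
  refine ⟨36 * Real.pi * (1 + Real.log 8), by positivity, fun a b ha hab => ?_⟩
  have hα : 0 < ‖a‖ := norm_pos_iff.2 ha
  have hβ : 0 < ‖b‖ := by linarith
  have hba : ‖b - a‖ ≤ 3 * ‖b‖ / 2 := by
    have := norm_sub_le b a
    linarith
  set α := ‖a‖ with hαd
  set β := ‖b‖ with hβd
  -- the five pieces
  obtain ⟨m1, i1⟩ := KER_cov (ball b (β / 4)) measurableSet_ball (8 / β) _ (by positivity)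
    (fun z => 1 / ‖z - b‖) (by fun_prop) (KER_v1a b (β / 4) (by positivity))
  obtain ⟨m2, i2⟩ := KER_cov {z : ℂ | ‖z‖ ∈ Ioi (2 * β)} (measurable_norm measurableSet_Ioi) (8 * β) _
    (by positivity) (fun z => 1 / ‖z‖ ^ 3) (by fun_prop) (KER_v3 (2 * β) (by positivity))
  obtain ⟨m3, i3⟩ := KER_cov (ball 0 (α / 2)) measurableSet_ball (12 / α) _ (by positivity)
    (fun z => 1 / ‖z‖) (by fun_prop) (KER_v1 (α / 2) (by positivity))
  obtain ⟨m4, i4⟩ := KER_cov (ball a (α / 2)) measurableSet_ball (12 / α) _ (by positivity)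
    (fun z => 1 / ‖z - a‖) (by fun_prop) (KER_v1a a (α / 2) (by positivity))
  obtain ⟨m5, i5⟩ := KER_cov {z : ℂ | ‖z‖ ∈ Ioc (α / 4) (2 * β)} (measurable_norm measurableSet_Ioc)
    18 _ (by positivity) (fun z => 1 / ‖z‖ ^ 2) (by fun_prop)
    (KER_v2 (α / 4) (2 * β) (by positivity) (by linarith))
  set g1 := (ball b (β / 4)).indicator
    (fun z => ENNReal.ofReal (8 / β) * ENNReal.ofReal ((fun z => 1 / ‖z - b‖) z)) with hg1
  set g2 := {z : ℂ | ‖z‖ ∈ Ioi (2 * β)}.indicator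
    (fun z => ENNReal.ofReal (8 * β) * ENNReal.ofReal ((fun z => 1 / ‖z‖ ^ 3) z)) with hg2
  set g3 := (ball (0 : ℂ) (α / 2)).indicator
    (fun z => ENNReal.ofReal (12 / α) * ENNReal.ofReal ((fun z => 1 / ‖z‖) z)) with hg3
  set g4 := (ball a (α / 2)).indicator
    (fun z => ENNReal.ofReal (12 / α) * ENNReal.ofReal ((fun z => 1 / ‖z - a‖) z)) with hg4
  set g5 := {z : ℂ | ‖z‖ ∈ Ioc (α / 4) (2 * β)}.indicator
    (fun z => ENNReal.ofReal 18 * ENNReal.ofReal ((fun z => 1 / ‖z‖ ^ 2) z)) with hg5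
  have hpt : ∀ z : ℂ, ENNReal.ofReal (‖b - a‖ / (‖z‖ * ‖z - a‖ * ‖z - b‖)) ≤
      g1 z + (g2 z + (g3 z + (g4 z + g5 z))) := by
    intro z
    by_cases hz0 : ‖z‖ = 0
    · rw [hz0]
      simp
    by_cases hza : ‖z - a‖ = 0
    · rw [hza]
      simp
    by_cases hzb : ‖z - b‖ = 0
    · rw [hzb]
      simp
    have hz0' : 0 < ‖z‖ := lt_of_le_of_ne (norm_nonneg _) (Ne.symm hz0)
    have hza' : 0 < ‖z - a‖ := lt_of_le_of_ne (norm_nonneg _) (Ne.symm hza)
    have hzb' : 0 < ‖z - b‖ := lt_of_le_of_ne (norm_nonneg _) (Ne.symm hzb)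
    have t1 : ‖z‖ ≤ ‖z - a‖ + α := by
      have := norm_add_le (z - a) a
      rwa [sub_add_cancel] at this
    have t2 : α ≤ ‖z - a‖ + ‖z‖ := by
      have := norm_sub_le z (z - a)
      rw [sub_sub_cancel] at this
      linarith
    have t3 : ‖z‖ ≤ ‖z - b‖ + β := by
      have := norm_add_le (z - b) b
      rwa [sub_add_cancel] at this
    have t4 : β ≤ ‖z - b‖ + ‖z‖ := by
      have := norm_sub_le z (z - b)
      rw [sub_sub_cancel] at this
      linarith
    by_cases c1 : z ∈ ball b (β / 4)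
    · have c1' : ‖z - b‖ < β / 4 := by rwa [mem_ball, dist_eq_norm] at c1
      refine (KER_pt _ (8 / β) (by positivity) (fun z => 1 / ‖z - b‖) z c1 _ ?_).trans le_self_add
      rw [div_le_iff₀ (by positivity)]
      have e1 : 8 / β * (1 / ‖z - b‖) * (‖z‖ * ‖z - a‖ * ‖z - b‖) = 8 / β * (‖z‖ * ‖z - a‖) := by
        field_simp
      have e2 : 3 * β / 4 * (β / 4) ≤ ‖z‖ * ‖z - a‖ :=
        mul_le_mul (by linarith) (by linarith) (by positivity) (by positivity)
      have e3 : 8 / β * (3 * β / 4 * (β / 4)) = 3 * β / 2 := by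
        field_simp
        ring
      show ‖b - a‖ ≤ 8 / β * (1 / ‖z - b‖) * (‖z‖ * ‖z - a‖ * ‖z - b‖)
      rw [e1]
      calc ‖b - a‖ ≤ 3 * β / 2 := hba
        _ = 8 / β * (3 * β / 4 * (β / 4)) := e3.symm
        _ ≤ 8 / β * (‖z‖ * ‖z - a‖) := mul_le_mul_of_nonneg_left e2 (by positivity)
    have c1' : β / 4 ≤ ‖z - b‖ := by
      rw [mem_ball, dist_eq_norm] at c1
      exact not_lt.1 c1
    by_cases c2 : ‖z‖ ∈ Ioi (2 * β)
    · have c2' : 2 * β < ‖z‖ := c2
      refine (KER_pt {z : ℂ | ‖z‖ ∈ Ioi (2 * β)} (8 * β) (by positivity)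
        (fun z => 1 / ‖z‖ ^ 3) z c2 _ ?_).trans (le_self_add.trans le_add_self)
      rw [div_le_iff₀ (by positivity)]
      show ‖b - a‖ ≤ 8 * β * (1 / ‖z‖ ^ 3) * (‖z‖ * ‖z - a‖ * ‖z - b‖)
      have e1 : 8 * β * (1 / ‖z‖ ^ 3) * (‖z‖ * ‖z - a‖ * ‖z - b‖) =
          8 * β * ((‖z - a‖ * ‖z - b‖) / ‖z‖ ^ 2) := by
        field_simp
      have e2 : 3 / 4 * ‖z‖ * (1 / 2 * ‖z‖) ≤ ‖z - a‖ * ‖z - b‖ :=
        mul_le_mul (by linarith) (by linarith) (by positivity) (by positivity)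
      have e3 : 3 / 8 ≤ (‖z - a‖ * ‖z - b‖) / ‖z‖ ^ 2 := by
        rw [le_div_iff₀ (by positivity)]
        linarith
      rw [e1]
      calc ‖b - a‖ ≤ 3 * β / 2 := hba
        _ ≤ 8 * β * (3 / 8) := by linarith
        _ ≤ 8 * β * ((‖z - a‖ * ‖z - b‖) / ‖z‖ ^ 2) := mul_le_mul_of_nonneg_left e3 (by positivity)
    have c2' : ‖z‖ ≤ 2 * β := not_lt.1 c2
    by_cases c3 : z ∈ ball (0 : ℂ) (α / 2)
    · have c3' : ‖z‖ < α / 2 := by rwa [mem_ball_zero_iff] at c3
      refine (KER_pt _ (12 / α) (by positivity) (fun z => 1 / ‖z‖) z c3 _ ?_).trans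
        ((le_self_add.trans le_add_self).trans le_add_self)
      rw [div_le_iff₀ (by positivity)]
      show ‖b - a‖ ≤ 12 / α * (1 / ‖z‖) * (‖z‖ * ‖z - a‖ * ‖z - b‖)
      have e1 : 12 / α * (1 / ‖z‖) * (‖z‖ * ‖z - a‖ * ‖z - b‖) = 12 / α * (‖z - a‖ * ‖z - b‖) := by
        field_simp
      have e2 : α / 2 * (β / 4) ≤ ‖z - a‖ * ‖z - b‖ :=
        mul_le_mul (by linarith) (by linarith) (by positivity) (by positivity)
      have e3 : 12 / α * (α / 2 * (β / 4)) = 3 * β / 2 := by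
        field_simp
        ring
      rw [e1]
      calc ‖b - a‖ ≤ 3 * β / 2 := hba
        _ = 12 / α * (α / 2 * (β / 4)) := e3.symm
        _ ≤ 12 / α * (‖z - a‖ * ‖z - b‖) := mul_le_mul_of_nonneg_left e2 (by positivity)
    have c3' : α / 2 ≤ ‖z‖ := by
      rw [mem_ball_zero_iff] at c3
      exact not_lt.1 c3
    by_cases c4 : z ∈ ball a (α / 2)
    · have c4' : ‖z - a‖ < α / 2 := by rwa [mem_ball, dist_eq_norm] at c4
      refine (KER_pt _ (12 / α) (by positivity) (fun z => 1 / ‖z - a‖) z c4 _ ?_).trans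
        (((le_self_add.trans le_add_self).trans le_add_self).trans le_add_self)
      rw [div_le_iff₀ (by positivity)]
      show ‖b - a‖ ≤ 12 / α * (1 / ‖z - a‖) * (‖z‖ * ‖z - a‖ * ‖z - b‖)
      have e1 : 12 / α * (1 / ‖z - a‖) * (‖z‖ * ‖z - a‖ * ‖z - b‖) = 12 / α * (‖z‖ * ‖z - b‖) := by
        field_simp
      have e2 : α / 2 * (β / 4) ≤ ‖z‖ * ‖z - b‖ :=
        mul_le_mul (by linarith) (by linarith) (by positivity) (by positivity)
      have e3 : 12 / α * (α / 2 * (β / 4)) = 3 * β / 2 := by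
        field_simp
        ring
      rw [e1]
      calc ‖b - a‖ ≤ 3 * β / 2 := hba
        _ = 12 / α * (α / 2 * (β / 4)) := e3.symm
        _ ≤ 12 / α * (‖z‖ * ‖z - b‖) := mul_le_mul_of_nonneg_left e2 (by positivity)
    have c4' : α / 2 ≤ ‖z - a‖ := by
      rw [mem_ball, dist_eq_norm] at c4
      exact not_lt.1 c4
    have c5 : ‖z‖ ∈ Ioc (α / 4) (2 * β) := ⟨by linarith, c2'⟩
    refine (KER_pt {z : ℂ | ‖z‖ ∈ Ioc (α / 4) (2 * β)} 18 (by positivity)
      (fun z => 1 / ‖z‖ ^ 2) z c5 _ ?_).trans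
      (((le_add_self.trans le_add_self).trans le_add_self).trans le_add_self)
    rw [div_le_iff₀ (by positivity)]
    show ‖b - a‖ ≤ 18 * (1 / ‖z‖ ^ 2) * (‖z‖ * ‖z - a‖ * ‖z - b‖)
    have e1 : 18 * (1 / ‖z‖ ^ 2) * (‖z‖ * ‖z - a‖ * ‖z - b‖) =
        18 * ((‖z - a‖ * ‖z - b‖) / ‖z‖) := by
      field_simp
    have e2 : ‖z‖ / 3 * (β / 4) ≤ ‖z - a‖ * ‖z - b‖ :=
      mul_le_mul (by linarith) (by linarith) (by positivity) (by positivity)
    have e3 : β / 12 ≤ (‖z - a‖ * ‖z - b‖) / ‖z‖ := by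
      rw [le_div_iff₀ hz0']
      linarith
    rw [e1]
    calc ‖b - a‖ ≤ 3 * β / 2 := hba
      _ = 18 * (β / 12) := by ring
      _ ≤ 18 * ((‖z - a‖ * ‖z - b‖) / ‖z‖) := mul_le_mul_of_nonneg_left e3 (by norm_num)
  refine (lintegral_mono hpt).trans ?_
  rw [lintegral_add_left m1, lintegral_add_left m2, lintegral_add_left m3, lintegral_add_left m4,
    i1, i2, i3, i4, i5]
  have hlog : 0 ≤ Real.log (2 * β / (α / 4)) := by
    apply Real.log_nonneg
    rw [le_div_iff₀ (by positivity)]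
    linarith
  rw [← ENNReal.ofReal_add (by positivity) (by positivity),
    ← ENNReal.ofReal_add (by positivity) (by positivity),
    ← ENNReal.ofReal_add (by positivity) (by positivity),
    ← ENNReal.ofReal_add (by positivity) (by positivity)]
  refine ENNReal.ofReal_le_ofReal ?_
  have hL0 : 0 ≤ Real.log (β / α) := by
    apply Real.log_nonneg
    rw [le_div_iff₀ hα]
    linarith
  have e1 : Real.log (2 * β / (α / 4)) = Real.log 8 + Real.log (β / α) := by
    rw [← Real.log_mul (by norm_num) (by positivity)]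
    congr 1
    field_simp
    ring
  have e2 : 8 / β * (2 * Real.pi * (β / 4)) + (8 * β * (2 * Real.pi * (1 / (2 * β))) +
      (12 / α * (2 * Real.pi * (α / 2)) + (12 / α * (2 * Real.pi * (α / 2)) +
        18 * (2 * Real.pi * Real.log (2 * β / (α / 4)))))) =
      36 * Real.pi * (1 + (Real.log 8 + Real.log (β / α))) := by
    rw [e1]
    field_simp
    ring
  rw [e2, mul_assoc (36 * Real.pi)]
  refine mul_le_mul_of_nonneg_left ?_ (by positivity)
  nlinarith [mul_nonneg hl8.le hL0]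

end GR
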